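import Mathlib

/-! Labels for Diophantine graphs: common partners of two labels with no further partner. -/

set_option autoImplicit false

namespace Pool.TH783.DG

theorem isSquare_of_mul {m t p : ℤ} (hm : m ≠ 0) (h : m ^ 2 * t = p ^ 2) : IsSquare t := by
  have h1 : m ∣ p := by
    rw [← Int.pow_dvd_pow_iff (n := 2) (by norm_num)]
    exact Dvd.intro _ h
  obtain ⟨r, rfl⟩ := h1
  refine ⟨r, ?_⟩
  apply mul_left_cancel₀ (pow_ne_zero 2 hm)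
  linear_combination h

theorem det_ne (a b c e : ℤ) (hc : 0 < c) (hab : a ≠ b)
    (hsq : ¬ IsSquare (a * b)) (he : e = 0 ∨ (e = 1 ∧ c ≠ a ∧ c ≠ b))
    (n₀ n₁ n₂ x₀ x₁ x₂ y₀ y₁ y₂ z₀ z₁ z₂ : ℤ) (h01 : n₀ ≠ n₁) (h02 : n₀ ≠ n₂) (h12 : n₁ ≠ n₂)
    (hx₀ : a * n₀ + 1 = x₀ ^ 2) (hx₁ : a * n₁ + 1 = x₁ ^ 2) (hx₂ : a * n₂ + 1 = x₂ ^ 2)
    (hy₀ : b * n₀ + 1 = y₀ ^ 2) (hy₁ : b * n₁ + 1 = y₁ ^ 2) (hy₂ : b * n₂ + 1 = y₂ ^ 2)
    (hz₀ : c * n₀ + e = z₀ ^ 2) (hz₁ : c * n₁ + e = z₁ ^ 2) (hz₂ : c * n₂ + e = z₂ ^ 2) :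
    x₀ * (y₁ * z₂ - y₂ * z₁) - x₁ * (y₀ * z₂ - y₂ * z₀) + x₂ * (y₀ * z₁ - y₁ * z₀) ≠ 0 := by
  intro hD
  obtain ⟨α, hα⟩ : ∃ α, α = y₀ * z₁ - y₁ * z₀ := ⟨_, rfl⟩
  obtain ⟨β, hβ⟩ : ∃ β, β = z₀ * x₁ - z₁ * x₀ := ⟨_, rfl⟩
  obtain ⟨γ, hγ⟩ : ∃ γ, γ = x₀ * y₁ - x₁ * y₀ := ⟨_, rfl⟩
  have l0 : α * x₀ + β * y₀ + γ * z₀ = 0 := by rw [hα, hβ, hγ]; ring
  have l1 : α * x₁ + β * y₁ + γ * z₁ = 0 := by rw [hα, hβ, hγ]; ring
  have l2 : α * x₂ + β * y₂ + γ * z₂ = 0 := by rw [hα, hβ, hγ]; linear_combination hD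
  have hγ0 : γ ≠ 0 := by
    intro h
    rw [hγ] at h
    have h1 : (x₀ * y₁) ^ 2 = (x₁ * y₀) ^ 2 := by rw [sub_eq_zero.mp h]
    rw [mul_pow, mul_pow, ← hx₀, ← hx₁, ← hy₀, ← hy₁] at h1
    have h2 : (a - b) * (n₀ - n₁) = 0 := by linear_combination h1
    rcases mul_eq_zero.mp h2 with h3 | h3
    · exact hab (sub_eq_zero.mp h3)
    · exact h01 (sub_eq_zero.mp h3)
  obtain ⟨P, hP⟩ : ∃ P, P = γ ^ 2 * c - α ^ 2 * a - β ^ 2 * b := ⟨_, rfl⟩
  obtain ⟨Q, hQ⟩ : ∃ Q, Q = γ ^ 2 * e - α ^ 2 - β ^ 2 := ⟨_, rfl⟩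
  have quad : ∀ n x y z : ℤ, a * n + 1 = x ^ 2 → b * n + 1 = y ^ 2 → c * n + e = z ^ 2 →
      α * x + β * y + γ * z = 0 →
      (4 * α ^ 2 * β ^ 2 * (a * b) - P ^ 2) * n ^ 2 +
        (4 * α ^ 2 * β ^ 2 * (a + b) - 2 * P * Q) * n + (4 * α ^ 2 * β ^ 2 - Q ^ 2) = 0 := by
    intro n x y z h1 h2 h3 h4
    have h5 : 2 * α * β * (x * y) = P * n + Q := by
      rw [hP, hQ]
      have h6 : (γ * z) ^ 2 = (α * x + β * y) ^ 2 := by
        have : γ * z = -(α * x + β * y) := by linear_combination h4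
        rw [this]
        ring
      linear_combination (-1 : ℤ) * h6 + α ^ 2 * h1 + β ^ 2 * h2 - γ ^ 2 * h3
    have h7 : (2 * α * β * (x * y)) ^ 2 = (P * n + Q) ^ 2 := by rw [h5]
    have h8 : (2 * α * β * (x * y)) ^ 2 = 4 * α ^ 2 * β ^ 2 * ((a * n + 1) * (b * n + 1)) := by
      rw [h1, h2]
      ring
    rw [h8] at h7
    linear_combination h7
  have q0 := quad _ _ _ _ hx₀ hy₀ hz₀ l0
  have q1 := quad _ _ _ _ hx₁ hy₁ hz₁ l1
  have q2 := quad _ _ _ _ hx₂ hy₂ hz₂ l2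
  obtain ⟨A, hA⟩ : ∃ A, A = 4 * α ^ 2 * β ^ 2 * (a * b) - P ^ 2 := ⟨_, rfl⟩
  obtain ⟨B, hB⟩ : ∃ B, B = 4 * α ^ 2 * β ^ 2 * (a + b) - 2 * P * Q := ⟨_, rfl⟩
  obtain ⟨C, hC⟩ : ∃ C, C = 4 * α ^ 2 * β ^ 2 - Q ^ 2 := ⟨_, rfl⟩
  rw [← hA, ← hB, ← hC] at q0 q1 q2
  have r1 : A * (n₀ + n₁) + B = 0 := by
    apply mul_left_cancel₀ (sub_ne_zero.mpr h01)
    linear_combination q0 - q1
  have r2 : A * (n₀ + n₂) + B = 0 := by
    apply mul_left_cancel₀ (sub_ne_zero.mpr h02)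
    linear_combination q0 - q2
  have hA0 : A = 0 := by
    have h3 : A * (n₁ - n₂) = 0 := by linear_combination r1 - r2
    rcases mul_eq_zero.mp h3 with h4 | h4
    · exact h4
    · exact absurd (sub_eq_zero.mp h4) h12
  have hB0 : B = 0 := by rw [hA0] at r1; linarith
  have hC0 : C = 0 := by rw [hA0, hB0] at q0; linarith
  have hPP : (2 * α * β) ^ 2 * (a * b) = P ^ 2 := by linear_combination hA0 - hA
  have hQQ : (2 * α * β) ^ 2 = Q ^ 2 := by linear_combination hC0 - hC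
  by_cases hαβ : 2 * α * β = 0
  · rw [hαβ] at hPP hQQ
    have hP0 : P = 0 := by
      have : P ^ 2 = 0 := by rw [← hPP]; ring
      exact pow_eq_zero_iff (by norm_num) |>.mp this
    have hQ0 : Q = 0 := by
      have : Q ^ 2 = 0 := by rw [← hQQ]; ring
      exact pow_eq_zero_iff (by norm_num) |>.mp this
    rw [hP0] at hP
    rw [hQ0] at hQ
    have hγ2 : 0 < γ ^ 2 := by positivity
    rcases he with rfl | ⟨rfl, hca, hcb⟩
    · have h1 : α ^ 2 + β ^ 2 = 0 := by linear_combination hQ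
      have h2 : α ^ 2 = 0 := le_antisymm (by linarith [sq_nonneg β]) (sq_nonneg α)
      have h3 : β ^ 2 = 0 := by linarith
      rw [h2, h3] at hP
      have h4 : 0 < γ ^ 2 * c := mul_pos hγ2 hc
      linarith
    · rcases mul_eq_zero.mp hαβ with h | h
      · have hα0 : α = 0 := by linarith
        rw [hα0] at hP hQ
        have h4 : γ ^ 2 * (c - b) = 0 := by linear_combination -hP + b * hQ
        rcases mul_eq_zero.mp h4 with h5 | h5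
        · exact absurd h5 hγ2.ne'
        · exact hcb (sub_eq_zero.mp h5)
      · rw [h] at hP hQ
        have h4 : γ ^ 2 * (c - a) = 0 := by linear_combination -hP + a * hQ
        rcases mul_eq_zero.mp h4 with h5 | h5
        · exact absurd h5 hγ2.ne'
        · exact hca (sub_eq_zero.mp h5)
  · exact hsq (isSquare_of_mul hαβ hPP)

theorem approx {a c e : ℝ} (ha : 0 < a) (hc : 0 < c) {n x z : ℝ} (hx0 : 0 < x) (hz0 : 0 ≤ z)
    (hx : a * n + 1 = x ^ 2) (hz : c * n + e = z ^ 2) :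
    |(z - √(c / a) * x) * x| ≤ |e - c / a| / √(c / a) := by
  set γ := √(c / a) with hγ
  have hγ0 : 0 < γ := Real.sqrt_pos.mpr (div_pos hc ha)
  have hγ2 : γ ^ 2 = c / a := Real.sq_sqrt (div_pos hc ha).le
  have h1 : (z - γ * x) * (z + γ * x) = e - c / a := by
    have : (z - γ * x) * (z + γ * x) = z ^ 2 - γ ^ 2 * x ^ 2 := by ring
    rw [this, hγ2, ← hx, ← hz]
    field_simp
    ring
  rw [le_div_iff₀ hγ0, ← h1, abs_mul, abs_mul, abs_of_pos hx0,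
    abs_of_pos (by positivity : 0 < z + γ * x), mul_assoc]
  apply mul_le_mul_of_nonneg_left _ (abs_nonneg _)
  nlinarith

theorem three (a b c e : ℕ) (ha : 0 < a) (hb : 0 < b) (hc : 0 < c) (hab : a ≠ b)
    (hsq : ¬ IsSquare (a * b)) (he : e = 0 ∨ (e = 1 ∧ c ≠ a ∧ c ≠ b)) :
    ∃ K : ℕ, ∀ n₀ n₁ n₂ x₀ x₁ x₂ y₀ y₁ y₂ z₀ z₁ z₂ : ℕ, n₀ ≠ n₁ → n₀ ≠ n₂ → n₁ ≠ n₂ →
      a * n₀ + 1 = x₀ ^ 2 → a * n₁ + 1 = x₁ ^ 2 → a * n₂ + 1 = x₂ ^ 2 →
      b * n₀ + 1 = y₀ ^ 2 → b * n₁ + 1 = y₁ ^ 2 → b * n₂ + 1 = y₂ ^ 2 →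
      c * n₀ + e = z₀ ^ 2 → c * n₁ + e = z₁ ^ 2 → c * n₂ + e = z₂ ^ 2 →
      x₀ * x₁ * x₂ ≤ K * (x₀ ^ 2 + x₁ ^ 2 + x₂ ^ 2) := by
  have haR : (0 : ℝ) < a := by exact_mod_cast ha
  have hbR : (0 : ℝ) < b := by exact_mod_cast hb
  have hcR : (0 : ℝ) < c := by exact_mod_cast hc
  obtain ⟨K₁, hK₁⟩ := exists_nat_ge (|(1 : ℝ) - b / a| / √(b / a))
  obtain ⟨K₂, hK₂⟩ := exists_nat_ge (|(e : ℝ) - c / a| / √(c / a))
  refine ⟨2 * (K₁ * K₂), ?_⟩
  intro n₀ n₁ n₂ x₀ x₁ x₂ y₀ y₁ y₂ z₀ z₁ z₂ h01 h02 h12 hx₀ hx₁ hx₂ hy₀ hy₁ hy₂ hz₀ hz₁ hz₂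
  have hD := det_ne a b c e (by exact_mod_cast hc) (by exact_mod_cast hab)
    (by
      intro h
      apply hsq
      obtain ⟨r, hr⟩ := h
      refine ⟨r.natAbs, ?_⟩
      zify
      rw [← abs_mul, abs_of_nonneg (mul_self_nonneg r)]
      exact hr) (by
      rcases he with h | ⟨h, h1, h2⟩
      · exact Or.inl (by exact_mod_cast h)
      · exact Or.inr ⟨by exact_mod_cast h, by exact_mod_cast h1, by exact_mod_cast h2⟩)
    n₀ n₁ n₂ x₀ x₁ x₂ y₀ y₁ y₂ z₀ z₁ z₂ (by exact_mod_cast h01) (by exact_mod_cast h02)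
    (by exact_mod_cast h12) (by exact_mod_cast hx₀) (by exact_mod_cast hx₁)
    (by exact_mod_cast hx₂) (by exact_mod_cast hy₀) (by exact_mod_cast hy₁)
    (by exact_mod_cast hy₂) (by exact_mod_cast hz₀) (by exact_mod_cast hz₁)
    (by exact_mod_cast hz₂)
  set D : ℤ := x₀ * (y₁ * z₂ - y₂ * z₁) - x₁ * (y₀ * z₂ - y₂ * z₀) + x₂ * (y₀ * z₁ - y₁ * z₀)
    with hDdef
  have pos : ∀ n x : ℕ, a * n + 1 = x ^ 2 → (0 : ℝ) < x := by
    intro n x h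
    have : 0 < x := by
      rcases Nat.eq_zero_or_pos x with h0 | h0
      · rw [h0] at h
        simp at h
      · exact h0
    exact_mod_cast this
  have bY : ∀ n x y : ℕ, a * n + 1 = x ^ 2 → b * n + 1 = y ^ 2 →
      |((y : ℝ) - √(b / a) * x) * x| ≤ K₁ := fun n x y h1 h2 =>
    (approx (n := n) haR hbR (pos n x h1) (Nat.cast_nonneg y) (by exact_mod_cast h1)
      (by exact_mod_cast h2)).trans hK₁
  have bZ : ∀ n x z : ℕ, a * n + 1 = x ^ 2 → c * n + e = z ^ 2 →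
      |((z : ℝ) - √(c / a) * x) * x| ≤ K₂ := fun n x z h1 h2 =>
    (approx (n := n) haR hcR (pos n x h1) (Nat.cast_nonneg z) (by exact_mod_cast h1)
      (by exact_mod_cast h2)).trans hK₂
  have A0 := bY _ _ _ hx₀ hy₀
  have A1 := bY _ _ _ hx₁ hy₁
  have A2 := bY _ _ _ hx₂ hy₂
  have B0 := bZ _ _ _ hx₀ hz₀
  have B1 := bZ _ _ _ hx₁ hz₁
  have B2 := bZ _ _ _ hx₂ hz₂
  have hid : (D : ℝ) * (x₀ * x₁ * x₂) =
      (x₀ : ℝ) ^ 2 * ((((y₁ : ℝ) - √(b / a) * x₁) * x₁) * (((z₂ : ℝ) - √(c / a) * x₂) * x₂) -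
        (((y₂ : ℝ) - √(b / a) * x₂) * x₂) * (((z₁ : ℝ) - √(c / a) * x₁) * x₁)) -
      (x₁ : ℝ) ^ 2 * ((((y₀ : ℝ) - √(b / a) * x₀) * x₀) * (((z₂ : ℝ) - √(c / a) * x₂) * x₂) -
        (((y₂ : ℝ) - √(b / a) * x₂) * x₂) * (((z₀ : ℝ) - √(c / a) * x₀) * x₀)) +
      (x₂ : ℝ) ^ 2 * ((((y₀ : ℝ) - √(b / a) * x₀) * x₀) * (((z₁ : ℝ) - √(c / a) * x₁) * x₁) -
        (((y₁ : ℝ) - √(b / a) * x₁) * x₁) * (((z₀ : ℝ) - √(c / a) * x₀) * x₀)) := by
    rw [hDdef]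
    push_cast
    ring
  generalize ((y₀ : ℝ) - √(b / a) * x₀) * x₀ = a0 at *
  generalize ((y₁ : ℝ) - √(b / a) * x₁) * x₁ = a1 at *
  generalize ((y₂ : ℝ) - √(b / a) * x₂) * x₂ = a2 at *
  generalize ((z₀ : ℝ) - √(c / a) * x₀) * x₀ = b0 at *
  generalize ((z₁ : ℝ) - √(c / a) * x₁) * x₁ = b1 at *
  generalize ((z₂ : ℝ) - √(c / a) * x₂) * x₂ = b2 at *
  have prod : ∀ s t : ℝ, |s| ≤ K₁ → |t| ≤ K₂ → |s * t| ≤ K₁ * K₂ := fun s t hs ht => by
    rw [abs_mul]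
    exact mul_le_mul hs ht (abs_nonneg _) (Nat.cast_nonneg _)
  have sub2 : ∀ s t s' t' : ℝ, |s| ≤ K₁ → |t| ≤ K₂ → |s'| ≤ K₁ → |t'| ≤ K₂ →
      |s * t - s' * t'| ≤ 2 * (K₁ * K₂) := fun s t s' t' hs ht hs' ht' => by
    calc _ ≤ |s * t| + |s' * t'| := abs_sub _ _
      _ ≤ _ := by linarith [prod s t hs ht, prod s' t' hs' ht']
  have e0 := sub2 a1 b2 a2 b1 A1 B2 A2 B1
  have e1 := sub2 a0 b2 a2 b0 A0 B2 A2 B0
  have e2 := sub2 a0 b1 a1 b0 A0 B1 A1 B0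
  have hD1 : (1 : ℝ) ≤ |(D : ℝ)| := by exact_mod_cast Int.one_le_abs hD
  have hfin : (x₀ * x₁ * x₂ : ℝ) ≤ 2 * (K₁ * K₂) * ((x₀ : ℝ) ^ 2 + x₁ ^ 2 + x₂ ^ 2) := by
    calc (x₀ * x₁ * x₂ : ℝ) ≤ |(D : ℝ)| * (x₀ * x₁ * x₂) := by
          have : (0 : ℝ) ≤ x₀ * x₁ * x₂ := by positivity
          nlinarith
      _ = |(D : ℝ) * (x₀ * x₁ * x₂)| := by
          rw [abs_mul, abs_of_nonneg (by positivity : (0 : ℝ) ≤ x₀ * x₁ * x₂)]
      _ ≤ (x₀ : ℝ) ^ 2 * |a1 * b2 - a2 * b1| + (x₁ : ℝ) ^ 2 * |a0 * b2 - a2 * b0| +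
          (x₂ : ℝ) ^ 2 * |a0 * b1 - a1 * b0| := by
          rw [hid]
          calc _ ≤ |(x₀ : ℝ) ^ 2 * (a1 * b2 - a2 * b1) - (x₁ : ℝ) ^ 2 * (a0 * b2 - a2 * b0)| +
                |(x₂ : ℝ) ^ 2 * (a0 * b1 - a1 * b0)| := abs_add_le _ _
            _ ≤ |(x₀ : ℝ) ^ 2 * (a1 * b2 - a2 * b1)| + |(x₁ : ℝ) ^ 2 * (a0 * b2 - a2 * b0)| +
                |(x₂ : ℝ) ^ 2 * (a0 * b1 - a1 * b0)| := by
                gcongr
                exact abs_sub _ _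
            _ = _ := by
                rw [abs_mul, abs_mul, abs_mul, abs_of_nonneg (sq_nonneg (x₀ : ℝ)),
                  abs_of_nonneg (sq_nonneg (x₁ : ℝ)), abs_of_nonneg (sq_nonneg (x₂ : ℝ))]
      _ ≤ (x₀ : ℝ) ^ 2 * (2 * (K₁ * K₂)) + (x₁ : ℝ) ^ 2 * (2 * (K₁ * K₂)) +
          (x₂ : ℝ) ^ 2 * (2 * (K₁ * K₂)) := by gcongr
      _ = _ := by ring
  exact_mod_cast hfin

/-! ### the family of labels -/

/-- the family of common neighbours of `a` and `b` -/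
theorem family (a b : ℕ) (ha : 0 < a) (hb : 0 < b) (hsq : ¬ IsSquare (a * b)) :
    ∃ (n x y : ℕ → ℕ) (R : ℕ), (∀ k, a * n k + 1 = x k ^ 2) ∧ (∀ k, b * n k + 1 = y k ^ 2) ∧
      StrictMono n ∧ (∀ k, k ≤ x k) ∧ (∀ k, x (k + 1) ≤ R * x k) ∧ Monotone x := by
  obtain ⟨X, Y, hXY, hY⟩ := Pell.exists_of_not_isSquare (d := ((a * b : ℕ) : ℤ))
    (by exact_mod_cast Nat.mul_pos ha hb) (by
      intro h
      apply hsq
      obtain ⟨r, hr⟩ := h
      refine ⟨r.natAbs, ?_⟩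
      zify
      rw [← abs_mul, abs_of_nonneg (mul_self_nonneg r), ← hr]
      push_cast
      ring)
  set u₁ := X.natAbs with hu₁
  set v₁ := Y.natAbs with hv₁
  have hv₁pos : 0 < v₁ := Int.natAbs_pos.mpr hY
  have h₁ : u₁ ^ 2 = a * b * v₁ ^ 2 + 1 := by
    zify
    rw [hu₁, hv₁]
    push_cast
    rw [sq_abs, sq_abs]
    push_cast at hXY
    linear_combination hXY
  have hu₁pos : 0 < u₁ := by
    rcases Nat.eq_zero_or_pos u₁ with h | h
    · rw [h] at h₁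
      simp at h₁
    · exact h
  -- the powers of the fundamental solution
  let s : ℕ → ℕ × ℕ := fun k => Nat.rec (1, 0) (fun _ t => (u₁ * t.1 + a * b * v₁ * t.2,
    u₁ * t.2 + v₁ * t.1)) k
  have s0 : s 0 = (1, 0) := rfl
  have ss : ∀ k, s (k + 1) = (u₁ * (s k).1 + a * b * v₁ * (s k).2,
    u₁ * (s k).2 + v₁ * (s k).1) := fun k => rfl
  have hpell : ∀ k, (s k).1 ^ 2 = a * b * (s k).2 ^ 2 + 1 := by
    intro k
    induction k with
    | zero => simp [s0]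
    | succ k ih =>
      rw [ss]
      simp only
      zify at ih h₁ ⊢
      linear_combination (u₁ : ℤ) ^ 2 * ih - a * b * (v₁ : ℤ) ^ 2 * ih + h₁
  have hupos : ∀ k, 1 ≤ (s k).1 := by
    intro k
    by_contra h
    have h0 : (s k).1 = 0 := by omega
    have := hpell k
    rw [h0] at this
    simp at this
  have hvlt : ∀ k, (s k).2 < (s (k + 1)).2 := by
    intro k
    rw [ss]
    simp only
    have := hupos k
    have h1 : (s k).2 ≤ u₁ * (s k).2 := Nat.le_mul_of_pos_left _ hu₁pos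
    have h2 : 1 ≤ v₁ * (s k).1 := Nat.mul_pos hv₁pos this
    omega
  have hule : ∀ k, (s k).1 ≤ (s (k + 1)).1 := by
    intro k
    rw [ss]
    simp only
    have h1 : (s k).1 ≤ u₁ * (s k).1 := Nat.le_mul_of_pos_left _ hu₁pos
    omega
  have hvu : ∀ k, (s k).2 ≤ (s k).1 := by
    intro k
    have h1 := hpell k
    have h2 : 0 < a * b := Nat.mul_pos ha hb
    by_contra hlt
    push Not at hlt
    nlinarith
  have hvm : StrictMono fun k => (s k).2 := strictMono_nat_of_lt_succ hvlt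
  have hum : Monotone fun k => (s k).1 := monotone_nat_of_le_succ hule
  refine ⟨fun k => (a + b) * (s k).2 ^ 2 + 2 * (s k).1 * (s k).2,
    fun k => (s k).1 + a * (s k).2, fun k => (s k).1 + b * (s k).2,
    u₁ + a * b * v₁ + a * (u₁ + v₁), fun k => ?_, fun k => ?_, ?_, fun k => ?_, fun k => ?_, ?_⟩
  · simp only
    have := hpell k
    nlinarith
  · simp only
    have := hpell k
    nlinarith
  · apply strictMono_nat_of_lt_succ
    intro k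
    have h1 := hvlt k
    have h2 := hule k
    have h3 := hupos k
    have h4 : (s k).1 * (s k).2 ≤ (s (k + 1)).1 * (s (k + 1)).2 := Nat.mul_le_mul h2 h1.le
    have h5 : (s k).2 ^ 2 < (s (k + 1)).2 ^ 2 := Nat.pow_lt_pow_left h1 (by norm_num)
    have h6 : (a + b) * (s k).2 ^ 2 < (a + b) * (s (k + 1)).2 ^ 2 :=
      Nat.mul_lt_mul_of_pos_left h5 (by omega)
    nlinarith
  · simp only
    have h1 : k ≤ (s k).2 := hvm.le_apply
    have h2 := hvu k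
    omega
  · simp only
    rw [ss]
    simp only
    have h1 := hvu k
    have h2 : u₁ * (s k).1 + a * b * v₁ * (s k).2 + a * (u₁ * (s k).2 + v₁ * (s k).1) ≤
        (u₁ + a * b * v₁ + a * (u₁ + v₁)) * (s k).1 := by
      calc u₁ * (s k).1 + a * b * v₁ * (s k).2 + a * (u₁ * (s k).2 + v₁ * (s k).1)
          ≤ u₁ * (s k).1 + a * b * v₁ * (s k).1 + a * (u₁ * (s k).1 + v₁ * (s k).1) := by
            gcongr
        _ = _ := by ring
    exact h2.trans (Nat.mul_le_mul_left _ (Nat.le_add_right _ _))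
  · intro i j hij
    simp only
    have h1 := hum hij
    have h2 := hvm.monotone hij
    simp only at h1 h2
    have := Nat.mul_le_mul_left a h2
    omega

/-- in a family of geometric growth, sets in which no three members are comparable do not cover -/
theorem avoid {ι : Type*} (P : Finset ι) (Bad : ι → ℕ → Prop) (x : ℕ → ℕ) (R : ℕ)
    (hx1 : ∀ k, k ≤ x k) (hx2 : ∀ k, x (k + 1) ≤ R * x k) (hmono : Monotone x) (K : ι → ℕ)
    (hK : ∀ i ∈ P, ∀ j k l : ℕ, j ≠ k → j ≠ l → k ≠ l → Bad i j → Bad i k → Bad i l →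
      x j * x k * x l ≤ K i * (x j ^ 2 + x k ^ 2 + x l ^ 2)) (L : ℕ) :
    ∃ k, L ≤ k ∧ ∀ i ∈ P, ¬ Bad i k := by
  classical
  by_contra hcon
  push Not at hcon
  set m := 2 * P.card with hm
  set KK := P.sup K with hKK
  set N := L + 3 * KK * (R ^ m) ^ 2 + 1 with hN
  have hpow : ∀ j, x (N + j) ≤ R ^ j * x N := by
    intro j
    induction j with
    | zero => simp
    | succ j ih =>
      calc x (N + (j + 1)) ≤ R * x (N + j) := hx2 (N + j)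
        _ ≤ R * (R ^ j * x N) := Nat.mul_le_mul_left _ ih
        _ = _ := by ring
  have hxN : N ≤ x N := hx1 N
  have hRpos : 1 ≤ R := by
    by_contra h0
    have h1 : R = 0 := by omega
    have h2 := hx2 0
    rw [h1, zero_mul] at h2
    have h3 := hx1 1
    simp only [zero_add] at h2
    omega
  have hup : ∀ k ∈ Finset.Icc N (N + m), x N ≤ x k ∧ x k ≤ R ^ m * x N := by
    intro k hk
    rw [Finset.mem_Icc] at hk
    refine ⟨hmono hk.1, ?_⟩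
    obtain ⟨j, rfl⟩ := Nat.exists_eq_add_of_le hk.1
    exact (hpow j).trans (Nat.mul_le_mul_right _ (Nat.pow_le_pow_right hRpos (by omega)))
  have hcard : ∀ i ∈ P, ((Finset.Icc N (N + m)).filter (Bad i)).card ≤ 2 := by
    intro i hi
    by_contra hlt
    push Not at hlt
    obtain ⟨j, hj, k, hk, l, hl, hjk, hjl, hkl⟩ := Finset.two_lt_card.mp hlt
    rw [Finset.mem_filter] at hj hk hl
    have h1 := hK i hi j k l hjk hjl hkl hj.2 hk.2 hl.2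
    obtain ⟨lj, uj⟩ := hup j hj.1
    obtain ⟨lk, uk⟩ := hup k hk.1
    obtain ⟨ll, ul⟩ := hup l hl.1
    have h2 : x N * x N * x N ≤ x j * x k * x l := Nat.mul_le_mul (Nat.mul_le_mul lj lk) ll
    have h3 : x j ^ 2 + x k ^ 2 + x l ^ 2 ≤ 3 * (R ^ m * x N) ^ 2 := by
      have := Nat.pow_le_pow_left uj 2
      have := Nat.pow_le_pow_left uk 2
      have := Nat.pow_le_pow_left ul 2
      omega
    have h4 : x N * x N * x N ≤ KK * (3 * (R ^ m * x N) ^ 2) :=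
      h2.trans (h1.trans (Nat.mul_le_mul (Finset.le_sup (f := K) hi) h3))
    have h5 : KK * (3 * (R ^ m * x N) ^ 2) = (3 * KK * (R ^ m) ^ 2) * (x N * x N) := by ring
    rw [h5, mul_comm (x N * x N) (x N)] at h4
    have hpos : 0 < x N * x N := by
      have : 0 < x N := by omega
      exact Nat.mul_pos this this
    have h6 := Nat.le_of_mul_le_mul_right h4 hpos
    omega
  have hcov : Finset.Icc N (N + m) ⊆ P.biUnion fun i => (Finset.Icc N (N + m)).filter (Bad i) := by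
    intro k hk
    obtain ⟨i, hi, hb⟩ := hcon k (by rw [Finset.mem_Icc] at hk; omega)
    exact Finset.mem_biUnion.mpr ⟨i, hi, Finset.mem_filter.mpr ⟨hk, hb⟩⟩
  have h7 := (Finset.card_le_card hcov).trans Finset.card_biUnion_le
  have h8 := Finset.sum_le_card_nsmul P _ 2 hcard
  rw [Nat.card_Icc] at h7
  simp only [smul_eq_mul] at h8
  omega

theorem new_label (a b : ℕ) (ha : 0 < a) (hb : 0 < b) (hab : a ≠ b) (hsq : ¬ IsSquare (a * b))
    (C : Finset ℕ) (hC : ∀ c ∈ C, 0 < c) (L : ℕ) :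
    ∃ n : ℕ, L < n ∧ IsSquare (n * a + 1) ∧ IsSquare (n * b + 1) ∧
      (∀ c ∈ C, c ≠ a → c ≠ b → ¬ IsSquare (n * c + 1)) ∧ ∀ c ∈ C, ¬ IsSquare (n * c) := by
  classical
  obtain ⟨n, x, y, R, hx, hy, hn, h1, h2, h3⟩ := family a b ha hb hsq
  set P : Finset (ℕ × ℕ) := (C ×ˢ {0}) ∪ ((C.filter fun c => c ≠ a ∧ c ≠ b) ×ˢ {1}) with hP
  have hPc : ∀ i ∈ P, 0 < i.1 ∧ (i.2 = 0 ∨ (i.2 = 1 ∧ i.1 ≠ a ∧ i.1 ≠ b)) := by
    intro i hi
    rw [hP, Finset.mem_union, Finset.mem_product, Finset.mem_product, Finset.mem_singleton,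
      Finset.mem_singleton, Finset.mem_filter] at hi
    rcases hi with ⟨h, h'⟩ | ⟨⟨h, h''⟩, h'⟩
    · exact ⟨hC _ h, Or.inl h'⟩
    · exact ⟨hC _ h, Or.inr ⟨h', h''⟩⟩
  have hex : ∀ i : ℕ × ℕ, ∃ K : ℕ, i ∈ P → ∀ j k l : ℕ, j ≠ k → j ≠ l → k ≠ l →
      IsSquare (i.1 * n j + i.2) → IsSquare (i.1 * n k + i.2) → IsSquare (i.1 * n l + i.2) →
      x j * x k * x l ≤ K * (x j ^ 2 + x k ^ 2 + x l ^ 2) := by
    intro i
    by_cases hi : i ∈ P
    · obtain ⟨hc, he⟩ := hPc i hi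
      obtain ⟨K, hK⟩ := three a b i.1 i.2 ha hb hc hab hsq he
      refine ⟨K, fun _ j k l hjk hjl hkl ⟨zj, hj⟩ ⟨zk, hk⟩ ⟨zl, hl⟩ => ?_⟩
      exact hK (n j) (n k) (n l) _ _ _ (y j) (y k) (y l) zj zk zl (hn.injective.ne hjk)
        (hn.injective.ne hjl) (hn.injective.ne hkl) (hx j) (hx k) (hx l) (hy j) (hy k) (hy l)
        (by rw [hj]; ring) (by rw [hk]; ring) (by rw [hl]; ring)
    · exact ⟨0, fun h => absurd h hi⟩
  choose K hK using hex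
  obtain ⟨k, hk, hgood⟩ := avoid P (fun i k => IsSquare (i.1 * n k + i.2)) x R h1 h2 h3 K
    (fun i hi j k l hjk hjl hkl hj hk hl => hK i hi j k l hjk hjl hkl hj hk hl) (L + 1)
  refine ⟨n k, ?_, ⟨x k, ?_⟩, ⟨y k, ?_⟩, fun c hc hca hcb h => ?_, fun c hc h => ?_⟩
  · have := hn.le_apply (x := k)
    omega
  · rw [mul_comm, hx k]
    ring
  · rw [mul_comm, hy k]
    ring
  · apply hgood (c, 1)
    · rw [hP, Finset.mem_union, Finset.mem_product, Finset.mem_product]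
      right
      simp [hc, hca, hcb]
    · simp only
      rwa [mul_comm]
  · apply hgood (c, 0)
    · rw [hP, Finset.mem_union, Finset.mem_product, Finset.mem_product]
      left
      simp [hc]
    · simp only [add_zero]
      rwa [mul_comm]

theorem dummy (a : ℕ) (ha : 0 < a) (L : ℕ) : ∃ b, L < b ∧ a < b ∧ ¬ IsSquare (a * b) := by
  obtain ⟨q, hqL, hq⟩ := Nat.exists_infinite_primes (L + 2)
  refine ⟨a * q, ?_, ?_, ?_⟩
  · have : q ≤ a * q := Nat.le_mul_of_pos_left _ ha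
    omega
  · have : a * 2 ≤ a * q := Nat.mul_le_mul_left _ (by omega)
    omega
  · intro h
    have h1 : IsSquare (q : ℤ) := by
      obtain ⟨r, hr⟩ := h
      apply isSquare_of_mul (m := (a : ℤ)) (p := r) (by exact_mod_cast ha.ne')
      have : ((a * (a * q) : ℕ) : ℤ) = ((r * r : ℕ) : ℤ) := by rw [hr]
      push_cast at this
      linear_combination this
    have h2 : IsSquare q := by
      obtain ⟨r, hr⟩ := h1
      refine ⟨r.natAbs, ?_⟩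
      zify
      rw [← abs_mul, abs_of_nonneg (mul_self_nonneg r)]
      exact hr
    exact hq.prime.irreducible.not_isSquare h2

end Pool.TH783.DG
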